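import Mathlib
import Pool.Agent.Y729.PC.Fin
import Pool.Agent.Y729.PC.All

/-!
# MP_a60a76_nt: the Frey-Mazur conjecture for almost all elliptic curves with full two-torsion, ordered
by the conductor

There are `X ^ (2 / 3 + o(1))` elliptic curves `E` over `ℚ` with full rational two-torsion and with
conductor (prime to two) at most `X`; all quadratic twists are counted and there is no restriction on
the heights. We show that there are absolute constants `ν, δ > 0` such that all but a proportion
`X ^ (-ν)` of them have the following property: if `E'` is any elliptic curve over `ℚ` with full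
rational two-torsion and conductor at most `X ^ (1 + δ)`, and `E` and `E'` are `p`-congruent for some
prime `p ≥ 13`, then `E'` is ISOMORPHIC to `E` (in particular isogenous to it). Quadratic twists of
`E` are not excepted.

Proof.
* Ordered by the conductor, for almost all `E` the parameter `z = a / b` of `E` has a radical
  `≥ X ^ (1 - ε)` and a height `≤ X ^ (1 / 3 + ε)` (library `Y729/AH`, which rests on the theorem of
  this project on almost all solutions of `a + b + c = 0` ordered by the radical). So the product `g`
  of the primes `q ≥ 5` with `v_q(j(E)) = -2` is at least `X ^ (1 - ε)`.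
* By the local theorem of helper673 (`FM.loc`) such a `q` is a pole of `j(E')`, as `p ∤ 2`; so `g`
  divides `a b c` and `a' b' c'`, if `a' + b' + c' = 0` belongs to `E'`.
* If `z'` has small height then `m' a b c = m a' b' c'` with small `m, m'`, and some
  `gcd(a_i, a'_j) ≥ g ^ (1 / 9)`. For given `a_i, a'_j, m, m'` the remaining unknowns satisfy
  `m' a_i u² - m a'_j w² = m' a_i³ - m a'_j³`, which has few solutions unless the right side is zero,
  when `j(E) = j(E')`. So there are at most `X ^ (5 / 9 + ε)` such `z`.
* There are at most `X ^ (2 / 3 - ν)` parameters `z'` of large height (same theorem), and for each of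
  them `a b c` is a small multiple of a divisor of the radical of `a' b' c'`, which leaves
  `X ^ ε` possibilities for `z`.
* If `j(E) = j(E')` then `E'` is a quadratic twist of `E`. The image of Galois on `E[p]` contains an
  element of order `p` (helper673), and a nontrivial twist would give an automorphism of `𝔽_p²` which
  commutes with an element of order `p` and anticommutes with another automorphism; this is
  impossible.

The parts were proved with the help of helpers 38, 61, 70, 454, 784, 900 (jobs PC-...); the counting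
of the solutions of Pell equations follows W366, W412, W925.
-/

set_option autoImplicit false

open NumberField IsDedekindDomain
open scoped Classical

namespace Pool.Agent.Results.MP_a60a76_nt.ConductorOrderedPairs

/-- The curve `y² = x³ + Ax + B` over `ℚ`. -/
def curve (A B : ℚ) : WeierstrassCurve ℚ := ⟨0, 0, 0, A, B⟩

/-- The group of its points over the algebraic closure of `ℚ`. -/
abbrev Points (A B : ℚ) : Type := ((curve A B).baseChange (AlgebraicClosure ℚ)).toAffine.Point

/-- The action of an automorphism `σ` of the algebraic closure on the points. -/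
noncomputable def galois (A B : ℚ) (σ : AlgebraicClosure ℚ ≃ₐ[ℚ] AlgebraicClosure ℚ) :
    Points A B →+ Points A B :=
  WeierstrassCurve.Affine.Point.map (σ : AlgebraicClosure ℚ →ₐ[ℚ] AlgebraicClosure ℚ)

/-- The curves `y² = x³ + Ax + B` and `y² = x³ + A'x + B'` are `p`-congruent: some map between the
groups of points restricts to a bijective additive map between the groups of points killed by `p` which
commutes with the Galois group. -/
def Congruent (p : ℕ) (A B A' B' : ℚ) : Prop :=
  ∃ f : Points A B → Points A' B', (∀ P Q, p • P = 0 → p • Q = 0 → f (P + Q) = f P + f Q) ∧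
    Set.BijOn f {P | p • P = 0} {Q | p • Q = 0} ∧
    ∀ (σ : AlgebraicClosure ℚ ≃ₐ[ℚ] AlgebraicClosure ℚ) (P : Points A B), p • P = 0 →
      f (galois A B σ P) = galois A' B' σ (f P)

/-- full rational two-torsion: the polynomial of the first coordinates of the points of order two
has three roots -/
def FullTwo {K : Type} [Field K] (E : WeierstrassCurve K) : Prop :=
  ∃ e : Fin 3 → K, Function.Injective e ∧
    ∀ i, 4 * e i ^ 3 + E.b₂ * e i ^ 2 + 2 * E.b₄ * e i + E.b₆ = 0

/-- good reduction at `v`: some Weierstrass equation over `K` of the curve is integral at `v` and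
has a discriminant which is a unit at `v` -/
def GoodAt {K : Type} [Field K] [NumberField K] (v : HeightOneSpectrum (𝓞 K))
    (E : WeierstrassCurve K) : Prop :=
  ∃ C : WeierstrassCurve.VariableChange K,
    v.valuation K (C • E).a₁ ≤ 1 ∧ v.valuation K (C • E).a₂ ≤ 1 ∧ v.valuation K (C • E).a₃ ≤ 1 ∧
    v.valuation K (C • E).a₄ ≤ 1 ∧ v.valuation K (C • E).a₆ ≤ 1 ∧ v.valuation K (C • E).Δ = 1

/-- semistable (good or multiplicative) reduction at `v`: some Weierstrass equation over `K` of the
curve is integral at `v` and its discriminant or its invariant `c₄` is a unit at `v` -/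
def SemistableAt {K : Type} [Field K] [NumberField K] (v : HeightOneSpectrum (𝓞 K))
    (E : WeierstrassCurve K) : Prop :=
  ∃ C : WeierstrassCurve.VariableChange K,
    v.valuation K (C • E).a₁ ≤ 1 ∧ v.valuation K (C • E).a₂ ≤ 1 ∧ v.valuation K (C • E).a₃ ≤ 1 ∧
    v.valuation K (C • E).a₄ ≤ 1 ∧ v.valuation K (C • E).a₆ ≤ 1 ∧
    (v.valuation K (C • E).Δ = 1 ∨ v.valuation K (C • E).c₄ = 1)

/-- the part prime to two of the conductor of a curve with full two-torsion: the product over the
primes `v` not above two of `N(v)` for multiplicative and `N(v) ^ 2` for additive reduction (used for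
`K = ℚ`) -/
noncomputable def cond {K : Type} [Field K] [NumberField K] (E : WeierstrassCurve K) : ℝ :=
  (∏ᶠ v ∈ {v : HeightOneSpectrum (𝓞 K) | ¬ GoodAt v E ∧ v.valuation K 2 = 1},
    (Ideal.absNorm v.asIdeal : ℝ)) *
  ∏ᶠ v ∈ {v : HeightOneSpectrum (𝓞 K) | ¬ SemistableAt v E ∧ v.valuation K 2 = 1},
    (Ideal.absNorm v.asIdeal : ℝ)

/-- the Weierstrass curves over `ℚ` up to isomorphism over `ℚ` (changes of variables) -/
abbrev IsoClass : Type :=
  Quotient (MulAction.orbitRel (WeierstrassCurve.VariableChange ℚ) (WeierstrassCurve ℚ))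

/-- the isomorphism class of a curve -/
def cls (E : WeierstrassCurve ℚ) : IsoClass := Quotient.mk'' E

/-- the isomorphism classes of the elliptic curves over `ℚ` with full rational two-torsion and
conductor (outside two) at most `X` -/
def Curves (X : ℝ) : Set IsoClass :=
  {q | ∃ E : WeierstrassCurve ℚ, cls E = q ∧ E.Δ ≠ 0 ∧ FullTwo E ∧ cond E ≤ X}

/-- `E : y² = x³ + Ax + B` has a companion: an elliptic curve `E' : y² = x³ + A'x + B'` over `ℚ` with
full two-torsion and conductor at most `Y`, not isomorphic to `E`, which is `p`-congruent to `E` for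
some prime `p ≥ 13` -/
def HasCompanion (Y : ℝ) (A B : ℚ) : Prop :=
  ∃ A' B' : ℚ, 4 * A' ^ 3 + 27 * B' ^ 2 ≠ 0 ∧ FullTwo (curve A' B') ∧ cond (curve A' B') ≤ Y ∧
    cls (curve A' B') ≠ cls (curve A B) ∧ ∃ p : ℕ, p.Prime ∧ 13 ≤ p ∧ Congruent p A B A' B'

/-- the isomorphism classes of the curves `y² = x³ + Ax + B` with full two-torsion and conductor at
most `X` which have a companion of conductor at most `X ^ (1 + δ)` -/
def Exceptional (δ X : ℝ) : Set IsoClass :=
  {q | ∃ A B : ℚ, cls (curve A B) = q ∧ 4 * A ^ 3 + 27 * B ^ 2 ≠ 0 ∧ FullTwo (curve A B) ∧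
    cond (curve A B) ≤ X ∧ HasCompanion (X ^ (1 + δ)) A B}

/-- **The Frey-Mazur conjecture for almost all curves with full two-torsion, ordered by the
conductor.** (1) There are `X ^ (2 / 3 + o(1))` elliptic curves over `ℚ` with full two-torsion and
conductor at most `X`. (2) There are `ν, δ > 0` such that for all large `X` all but a proportion
`X ^ (-ν)` of them are not `p`-congruent, for any prime `p ≥ 13`, to any other elliptic curve over `ℚ`
with full two-torsion and conductor at most `X ^ (1 + δ)`. -/
theorem result :
    (∀ ε : ℝ, 0 < ε → ∃ X₀ : ℝ, ∀ X : ℝ, X₀ ≤ X → (Curves X).Finite ∧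
      X ^ (2 / 3 - ε) ≤ ((Curves X).ncard : ℝ) ∧ ((Curves X).ncard : ℝ) ≤ X ^ (2 / 3 + ε)) ∧
    (∃ ν δ X₀ : ℝ, 0 < ν ∧ 0 < δ ∧ ∀ X : ℝ, X₀ ≤ X →
      ((Exceptional δ X).ncard : ℝ) ≤ X ^ (-ν) * (Curves X).ncard) := by
  refine ⟨fun ε hε => Pool.Agent.Y729.CF.two_bounds ℚ ε hε, ?_⟩
  obtain ⟨ν, δ, X₀, hν, hδ, hX₀, h⟩ := Pool.Agent.Y729.PC.main_exc
  refine ⟨ν, δ, X₀, hν, hδ, fun X hX => ?_⟩
  refine le_trans ?_ (h X hX)
  have hfin : (Pool.Agent.Y729.PC.Exc δ X).Finite :=
    Pool.Agent.Y729.PC.exc_finite (hX₀.trans hX)
  refine Nat.cast_le.2 (Set.ncard_le_ncard ?_ hfin)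
  rintro q ⟨A, B, h1, h2, h3, h4, A', B', h5, h6, h7, h8, p, hp, h13, f, f1, f2, f3⟩
  exact ⟨A, B, h1, h2, h3, h4, A', B', h5, h6, h7, fun hc => h8 (hc.trans h1.symm), p, f, hp, h13,
    ⟨f1, f2, f3⟩⟩

end Pool.Agent.Results.MP_a60a76_nt.ConductorOrderedPairs
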