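import Pool.Agent.Y673.SY.Ct

/-!
# MP_a60a76_nt: few curves are congruent to a given curve, with an explicit exponent

For every `D ≥ 1` and `ε > 0` there are `C` and `c > 0` such that for all `N ≥ max (5, D)`, all `X ≥ 1`
and EVERY rational number `j₀ ≠ 0, 1728` of height at most `X` at most
`C X ^ (5 D³ / N + ε)` algebraic numbers `j` of degree at most `D` and (naive) height at most
`X` are invariants of elliptic curves `E` over some number field `K` of degree at most `D` which are
`p`-congruent over `K` to some elliptic curve over `K` with invariant `j₀`, for some prime `p` with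
`N ≤ p ≤ exp (c √(log X))`.

The constants do not depend on `j₀`, on `N`, on `p`, or on the field.  With `D = 1` the exponent is
`5 / N + ε`, to be compared with the exponent `2` of the number of all rational `j`; so the bound is
nontrivial for all `N ≥ 5`, and for the primes `p > 17` (`N = 19`) the exponent is `0.27`.

Proof.  Let `c_1, ..., c_r` be the (scaled) `x`-coordinates of the points of order `p` of a curve with
invariant `j₀`, constants over `ℚ(t)`, and `x_1, ..., x_r` those of the curve
`y² = x³ - 3t(t - 1728)x - 2t(t - 1728)²` with invariant `t`.  The Galois group `G` over `ℚ(t)` of the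
joint family contains an element of order `p` which fixes the constants: over the number field `L`
generated by the constants specialise `t` to an element with valuation `-1` at a place above `2`.  If
`E` over `K` has invariant `j` and is congruent to a curve `E₀` with invariant `j₀`, then an
automorphism which fixes the `x`-coordinates of `E₀[p]` fixes those of `E[p]`, so that the decomposition
group `D` of `t = j` over `K` has index at least `p` in `G`.  Then a resolvent of `D` has degree at
least `p` in `Y`, is irreducible over `ℚ(t)`, and has a simple root in `K` at `t = j`.  For each of at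
most `exp (C (log p)²)` irreducible resolvents the algebraic numbers `j` with such a root are counted by
auxiliary polynomials, uniformly in the fields, in the resolvent and in `p`: it is enough to have a
prime `q` slightly larger than `X ^ (4 D² (1 + o(1)) / p)` which does not divide a discriminant, so one
of `(p log X) ^ C` fixed primes, and the curve has at most `q ^ D p ^ C` points in the residue fields
for each `q`.
-/

set_option autoImplicit false

open WeierstrassCurve

namespace Pool.Agent.Results.MP_a60a76_nt.ExplicitPartners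

section
variable {K : Type} [Field K]

/-- The curve `y² = x³ + Ax + B` over the field `K`. -/
def curve (A B : K) : WeierstrassCurve K := ⟨0, 0, 0, A, B⟩

/-- Its `j`-invariant. -/
noncomputable def invariant (A B : K) : K := 1728 * (4 * A ^ 3) / (4 * A ^ 3 + 27 * B ^ 2)

open scoped Classical in
/-- The group of its points over the algebraic closure of `K`. -/
abbrev Points (A B : K) : Type := ((curve A B).baseChange (AlgebraicClosure K)).toAffine.Point

open scoped Classical in
/-- The action of an automorphism `σ` of the algebraic closure on the points. -/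
noncomputable def galois (A B : K) (σ : AlgebraicClosure K ≃ₐ[K] AlgebraicClosure K) :
    Points A B →+ Points A B :=
  WeierstrassCurve.Affine.Point.map (σ : AlgebraicClosure K →ₐ[K] AlgebraicClosure K)

open scoped Classical in
/-- The curves `y² = x³ + Ax + B` and `y² = x³ + A'x + B'` are `p`-congruent over `K`: some map between
the groups of points restricts to a bijective additive map between the groups of points killed by `p`
which commutes with the Galois group. -/
def Congruent (p : ℕ) (A B A' B' : K) : Prop :=
  ∃ f : Points A B → Points A' B', (∀ P Q, p • P = 0 → p • Q = 0 → f (P + Q) = f P + f Q) ∧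
    Set.BijOn f {P | p • P = 0} {Q | p • Q = 0} ∧
    ∀ (σ : AlgebraicClosure K ≃ₐ[K] AlgebraicClosure K) (P : Points A B), p • P = 0 →
      f (galois A B σ P) = galois A' B' σ (f P)

end

/-- The algebraic number `j` is a root of a nonzero polynomial of degree at most `D` with integral
coefficients of absolute value at most `X`. -/
def HeightAtMost (D : ℕ) (X : ℝ) (j : ℂ) : Prop :=
  ∃ P : Polynomial ℤ, P ≠ 0 ∧ P.natDegree ≤ D ∧ (∀ i, |((P.coeff i : ℤ) : ℝ)| ≤ X) ∧
    Polynomial.aeval j P = 0

/-- The algebraic numbers `j` of degree at most `D` and height at most `X` such that over some number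
field `K` of degree at most `D` a curve with invariant `j` is `p`-congruent to a curve with invariant
`j₀`, for some prime `p` with `N ≤ p ≤ exp (c √(log X))`. -/
def Partners (D N : ℕ) (c X : ℝ) (j₀ : ℚ) : Set ℂ :=
  {j | HeightAtMost D X j ∧
    ∃ (K : Type) (_ : Field K) (_ : NumberField K) (σ : K →+* ℂ) (A B A₀ B₀ : K),
      Module.finrank ℚ K ≤ D ∧ 4 * A ^ 3 + 27 * B ^ 2 ≠ 0 ∧ 4 * A₀ ^ 3 + 27 * B₀ ^ 2 ≠ 0 ∧
        σ (invariant A B) = j ∧ invariant A₀ B₀ = (j₀ : K) ∧
          ∃ p : ℕ, p.Prime ∧ N ≤ p ∧ (p : ℝ) ≤ Real.exp (c * Real.sqrt (Real.log X)) ∧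
            Congruent p A B A₀ B₀}

/-- **Few partners, with an explicit exponent.**  For every `D ≥ 1` and `ε > 0` there are `C` and
`c > 0` such that for all `N ≥ max (5, D)` and all `X ≥ 1` every rational number `j₀ ≠ 0, 1728` of
height at most `X` has at most `C X ^ (5 D³ / N + ε)` partners of degree at most `D` and height at
most `X`. -/
theorem result (D : ℕ) (hD : 1 ≤ D) (ε : ℝ) (hε : 0 < ε) :
    ∃ C c : ℝ, 0 < c ∧ ∀ N : ℕ, 5 ≤ N → D ≤ N → ∀ X : ℝ, 1 ≤ X → ∀ j₀ : ℚ, j₀ ≠ 0 → j₀ ≠ 1728 →
      |(j₀.num : ℝ)| ≤ X → (j₀.den : ℝ) ≤ X →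
        (Partners D N c X j₀).Finite ∧
          ((Partners D N c X j₀).ncard : ℝ) ≤ C * X ^ (5 * (D : ℝ) ^ 3 / N + ε) := by
  obtain ⟨C, c, hc, h⟩ := Pool.Agent.Y673.SY.few_partnersF hD hε
  refine ⟨C, c, hc, fun N hN5 hND X hX j₀ h0 h1 hu hw => ?_⟩
  have hden : ((j₀.den : ℤ)) ≠ 0 := by exact_mod_cast j₀.den_nz
  obtain ⟨hf, hn⟩ := h N hN5 hND X hX j₀.num j₀.den hden (Rat.num_ne_zero.2 h0) (by
      intro h2
      apply h1
      have h3 : (j₀.num : ℚ) = 1728 * (j₀.den : ℚ) := by exact_mod_cast h2
      have h4 : (j₀.den : ℚ) ≠ 0 := by exact_mod_cast j₀.den_nz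
      rw [← Rat.num_div_den j₀, h3, mul_div_cancel_right₀ _ h4]) hu (by
      rw [Int.cast_natCast, abs_of_nonneg (Nat.cast_nonneg _)]
      exact hw)
  have hinv : ∀ {K : Type} [Field K] (A B : K), Pool.Agent.Y673.Loc.jv A B = invariant A B := by
    intro K _ A B
    unfold Pool.Agent.Y673.Loc.jv invariant
    ring
  have hsub : Partners D N c X j₀ ⊆ Pool.Agent.Y673.FX.ExP D N c X j₀.num j₀.den := by
    rintro j ⟨hH, K, iF, iN, σ, A, B, A₀, B₀, hK, hD', hD₀, hj, hj₀, p, hp, hNp, hpX, hcong⟩
    refine ⟨hH, p, hp, hNp, hpX, K, iF, iN, σ, A, B, A₀, B₀, hK, hD', hD₀, ?_, ?_, hcong⟩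
    · rw [hinv, hj]
    · rw [hinv, hj₀, Rat.cast_def, Int.cast_natCast]
  exact ⟨hf.subset hsub, (by exact_mod_cast Set.ncard_le_ncard hsub hf : _ ≤ _).trans hn⟩

end Pool.Agent.Results.MP_a60a76_nt.ExplicitPartners
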