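import Pool.Agent.Results.MP_a60a76_nt.FewPartners
import Pool.Agent.Y854.GM.Win

/-!
# No curve with invariant of height in short windows is congruent to a given curve

Let `v ≥ 1` be a sequence with exponent of convergence at most `τ` (for `v_n = n ^ a` this is `1 / a`, for `v_n = b ^ n`
or `n!` it is `0`), `0 ≤ θ < 1` and `P ≥ 17`. For all `α > 0` outside a set of Hausdorff dimension at most
`(7 / (2 P) + τ) / (1 - θ)` and EVERY elliptic curve `E₀` over `ℚ`, for all but finitely many `n` no elliptic curve over `ℚ`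
whose invariant `j` has height `H(j)` with `|H(j) - α v_n| ≤ v_n ^ θ` is `p`-congruent to `E₀` for a prime `p ≥ P`.
-/

set_option autoImplicit false

open WeierstrassCurve
open scoped Classical

namespace Pool.Agent.Results.MP_a60a76_nt.InvariantWindows

/-- the exponent of convergence of the sequence `v` is at most `τ` -/
def ExpLe (v : ℕ → ℝ) (τ : ℝ) : Prop := ∀ t : ℝ, τ < t → Summable (fun n : ℕ => (v n) ^ (-t))

/-- The curve `y² = x³ + Ax + B` over `ℚ`. -/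
def curve (A B : ℚ) : WeierstrassCurve ℚ := ⟨0, 0, 0, A, B⟩

/-- The group of its points over the algebraic closure of `ℚ`. -/
abbrev Points (A B : ℚ) : Type := ((curve A B).baseChange (AlgebraicClosure ℚ)).toAffine.Point

/-- The action of an automorphism `σ` of the algebraic closure on the points. -/
noncomputable def galois (A B : ℚ) (σ : AlgebraicClosure ℚ ≃ₐ[ℚ] AlgebraicClosure ℚ) :
    Points A B →+ Points A B :=
  WeierstrassCurve.Affine.Point.map (σ : AlgebraicClosure ℚ →ₐ[ℚ] AlgebraicClosure ℚ)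

/-- The curves `y² = x³ + Ax + B` and `y² = x³ + A'x + B'` are `p`-congruent: some map between the
groups of points restricts to a bijective additive map between the groups of points killed by `p` which
commutes with the Galois group. -/
def Congruent (p : ℕ) (A B A' B' : ℚ) : Prop :=
  ∃ f : Points A B → Points A' B', (∀ P Q, p • P = 0 → p • Q = 0 → f (P + Q) = f P + f Q) ∧
    Set.BijOn f {P | p • P = 0} {Q | p • Q = 0} ∧
    ∀ (σ : AlgebraicClosure ℚ ≃ₐ[ℚ] AlgebraicClosure ℚ) (P : Points A B), p • P = 0 →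
      f (galois A B σ P) = galois A' B' σ (f P)

/-- The invariant of `y² = x³ + Ax + B`. -/
def jInvariant (A B : ℚ) : ℚ := 6912 * A ^ 3 / (4 * A ^ 3 + 27 * B ^ 2)

/-- the height of a rational number: the maximum of the absolute values of numerator and denominator -/
def ht (j : ℚ) : ℕ := max j.num.natAbs j.den

/-- the invariants of the curves which are `p`-congruent to `y² = x³ + A₀x + B₀` for some prime `p ≥ P` -/
def Exc (P : ℕ) (A₀ B₀ : ℤ) : Set ℚ :=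
  {j | ∃ A B : ℚ, 4 * A ^ 3 + 27 * B ^ 2 ≠ 0 ∧ jInvariant A B = j ∧
      ∃ p : ℕ, p.Prime ∧ P ≤ p ∧ Congruent p A B (A₀ : ℚ) (B₀ : ℚ)}

lemma count (P : ℕ) (hP : 17 ≤ P) (A₀ B₀ : ℤ) (h0 : 4 * A₀ ^ 3 + 27 * B₀ ^ 2 ≠ 0) (ε : ℝ) (hε : 0 < ε) :
    ∃ C : ℝ, ∀ X : ℝ, 1 ≤ X →
      {j | j ∈ Exc P A₀ B₀ ∧ (ht j : ℝ) ≤ X}.Finite ∧
      ({j | j ∈ Exc P A₀ B₀ ∧ (ht j : ℝ) ≤ X}.ncard : ℝ) ≤ C * X ^ (7 / (2 * P) + ε) := by
  obtain ⟨C, κ, h⟩ := FewPartners.result ε hε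
  refine ⟨C * |((4 * A₀ ^ 3 + 27 * B₀ ^ 2 : ℤ) : ℝ)| ^ κ, fun X hX => ?_⟩
  obtain ⟨hfin, hcard⟩ := h A₀ B₀ h0 P X hP hX
  have hsub : {j | j ∈ Exc P A₀ B₀ ∧ (ht j : ℝ) ≤ X} ⊆ FewPartners.Partners P A₀ B₀ X := by
    rintro j ⟨⟨A, B, h1, h2, h3⟩, hj⟩
    have hn : (j.num.natAbs : ℝ) ≤ (ht j : ℝ) := by exact_mod_cast le_max_left j.num.natAbs j.den
    have hd : (j.den : ℝ) ≤ (ht j : ℝ) := by exact_mod_cast le_max_right j.num.natAbs j.den
    have ha : |(j.num : ℝ)| = (j.num.natAbs : ℝ) := by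
      rw [← Int.cast_abs, Int.abs_eq_natAbs]
      simp
    refine ⟨?_, hd.trans hj, A, B, h1, h2, h3⟩
    rw [ha]
    exact hn.trans hj
  refine ⟨hfin.subset hsub, ?_⟩
  refine le_trans ?_ hcard
  exact_mod_cast Set.ncard_le_ncard hsub hfin

/-- **Theorem.** Let `v ≥ 1` be a sequence of exponent of convergence at most `τ ≥ 0`, `0 ≤ θ < 1` and `P ≥ 17`. There is
a set `E` of Hausdorff dimension at most `(7 / (2 P) + τ) / (1 - θ)` such that for each `α > 0` outside `E` and EVERY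
elliptic curve `E₀ : y² = x³ + A₀x + B₀` over `ℚ`, `A₀`, `B₀` integers, for all but finitely many `n`: no elliptic curve
`y² = x³ + Ax + B` over `ℚ` whose invariant has a height `H` with `|H - α v_n| ≤ v_n ^ θ` is `p`-congruent to `E₀` for any
prime `p ≥ P`. The sequences `v_n = (n + 1) ^ a` and `v_n = b ^ n` have exponent of convergence at most `1 / a`
and `0`. -/
theorem result :
    (∀ (v : ℕ → ℝ) (τ θ : ℝ) (P : ℕ), 17 ≤ P → (∀ n, 1 ≤ v n) → 0 ≤ τ → ExpLe v τ → 0 ≤ θ → θ < 1 →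
      ∃ E : Set ℝ, dimH E ≤ ENNReal.ofReal ((7 / (2 * P) + τ) / (1 - θ)) ∧
        ∀ α : ℝ, 0 < α → α ∉ E → ∀ A₀ B₀ : ℤ, 4 * A₀ ^ 3 + 27 * B₀ ^ 2 ≠ 0 →
          ∃ n₀ : ℕ, ∀ n : ℕ, n₀ ≤ n → ∀ A B : ℚ, 4 * A ^ 3 + 27 * B ^ 2 ≠ 0 →
            |(ht (jInvariant A B) : ℝ) - α * v n| ≤ (v n) ^ θ →
              ∀ p : ℕ, p.Prime → P ≤ p → ¬ Congruent p A B (A₀ : ℚ) (B₀ : ℚ)) ∧
    (∀ a : ℝ, 0 < a → ExpLe (fun n : ℕ => ((n : ℝ) + 1) ^ a) (1 / a)) ∧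
    (∀ b : ℝ, 1 < b → ExpLe (fun n : ℕ => b ^ n) 0) := by
  refine ⟨fun v τ θ P hP hv hτ hE hθ hθ1 => ?_, fun κ hκ => Pool.Agent.Y854.GM.expLe_pow κ hκ,
    fun b hb => Pool.Agent.Y854.GM.expLe_geom b hb⟩
  have key : ∀ z : ℤ × ℤ, ∃ E : Set ℝ, dimH E ≤ ENNReal.ofReal ((7 / (2 * P) + τ) / (1 - θ)) ∧
      (4 * z.1 ^ 3 + 27 * z.2 ^ 2 ≠ 0 → ∀ α : ℝ, 0 < α → α ∉ E →
        ∃ n₀ : ℕ, ∀ n : ℕ, n₀ ≤ n → ∀ j ∈ Exc P z.1 z.2, (v n) ^ θ < |(ht j : ℝ) - α * v n|) := by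
    rintro ⟨A₀, B₀⟩
    by_cases h0 : 4 * A₀ ^ 3 + 27 * B₀ ^ 2 ≠ 0
    · obtain ⟨E, h1, h2⟩ := Pool.Agent.Y854.GM.windows (Exc P A₀ B₀) (fun j : ℚ => (ht j : ℝ)) hv hτ hE
        (s := 7 / (2 * P)) (by positivity) hθ1 (fun η hη => count P hP A₀ B₀ h0 η hη)
      exact ⟨E, h1, fun _ => h2⟩
    · exact ⟨∅, by simp, fun h => absurd h h0⟩
  choose G hG1 hG2 using key
  refine ⟨⋃ z, G z, ?_, fun α hα hαE A₀ B₀ h0 => ?_⟩
  · rw [dimH_iUnion]
    exact iSup_le hG1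
  · rw [Set.mem_iUnion] at hαE
    push Not at hαE
    obtain ⟨n₀, hn⟩ := hG2 (A₀, B₀) h0 α hα (hαE (A₀, B₀))
    refine ⟨n₀, fun n hn1 A B hAB hw p hp hPp hcon => ?_⟩
    exact absurd (hn n hn1 (jInvariant A B) ⟨A, B, hAB, rfl, p, hp, hPp, hcon⟩) (not_lt.2 hw)

end Pool.Agent.Results.MP_a60a76_nt.InvariantWindows
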